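import Pool.Agent.R951.LH.Sg

/-!
# The semigroup algebra is not logically homogeneous
-/

namespace Pool.Agent.R951.LH

open FirstOrder FirstOrder.Language

attribute [local instance] algStr

variable (P : Type) [Field P]

section hom

variable {P} {A B : Type} [NonUnitalRing A] [Module P A] [NonUnitalRing B] [Module P B]

/-- an injective homomorphism of algebras as an embedding of structures -/
def embOfHom (f : A →ₙₐ[P] B) (hf : Function.Injective f) : A ↪[algL P] B where
  toFun := f
  inj' := hf
  map_fun' := by
    rintro n (_ | _ | p | _ | _) x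
    · exact map_zero f
    · exact map_neg f _
    · exact map_smul f p _
    · exact map_add f _ _
    · exact map_mul f _ _
  map_rel' := by rintro n ⟨⟩

/-- a bijective homomorphism of algebras as an isomorphism of structures -/
def equivOfHom (f : A →ₙₐ[P] B) (g : B →ₙₐ[P] A) (h1 : ∀ x, g (f x) = x) (h2 : ∀ x, f (g x) = x) :
    A ≃[algL P] B where
  toFun := f
  invFun := g
  left_inv := h1
  right_inv := h2
  map_fun' := by
    rintro n (_ | _ | p | _ | _) x
    · exact map_zero f
    · exact map_neg f _
    · exact map_smul f p _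
    · exact map_add f _ _
    · exact map_mul f _ _
  map_rel' := by rintro n ⟨⟩

end hom

/-- the semigroup algebra of the semilattice -/
abbrev SA (I J : Type) := MonoidAlgebra P (Sg I J)

variable {P}

/-- the algebra homomorphism induced by injective maps of the index sets -/
noncomputable def mapHom {I J I' J' : Type} {f : I → I'} {g : J → J'} (hf : Function.Injective f)
    (hg : Function.Injective g) : SA P I J →ₙₐ[P] SA P I' J' :=
  MonoidAlgebra.liftMagma P
    { toFun := fun s => MonoidAlgebra.single (Sg.map f g s) (1 : P)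
      map_mul' := fun x y => by
        rw [MonoidAlgebra.single_mul_single, Sg.map_mul hf hg, one_mul] }

theorem mapHom_single {I J I' J' : Type} {f : I → I'} {g : J → J'} (hf : Function.Injective f)
    (hg : Function.Injective g) (s : Sg I J) (r : P) :
    mapHom hf hg (MonoidAlgebra.single s r) = MonoidAlgebra.single (Sg.map f g s) r := by
  unfold mapHom
  simp

theorem mapHom_eq {I J I' J' : Type} {f : I → I'} {g : J → J'} (hf : Function.Injective f)
    (hg : Function.Injective g) (x : SA P I J) :
    mapHom hf hg x = MonoidAlgebra.ofCoeff (Finsupp.mapDomain (Sg.map f g) x.coeff) := by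
  induction x using MonoidAlgebra.induction_linear with
  | zero => simp
  | add x y hx hy => rw [map_add, hx, hy, MonoidAlgebra.coeff_add, Finsupp.mapDomain_add]; rfl
  | single s r => rw [mapHom_single]; simp

theorem mapHom_injective {I J I' J' : Type} {f : I → I'} {g : J → J'} (hf : Function.Injective f)
    (hg : Function.Injective g) : Function.Injective (mapHom (P := P) hf hg) := by
  intro x y h
  rw [mapHom_eq, mapHom_eq] at h
  exact MonoidAlgebra.coeff_injective
    (Finsupp.mapDomain_injective (Sg.map_injective hf hg) (MonoidAlgebra.ofCoeff_injective h))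

/-- the automorphism induced by a permutation of the atoms of the second block -/
noncomputable def permEquiv {J : Type} (π : Equiv.Perm J) : SA P ℕ J ≃[algL P] SA P ℕ J :=
  equivOfHom (mapHom Function.injective_id π.injective)
    (mapHom Function.injective_id π.symm.injective)
    (by
      intro x
      induction x using MonoidAlgebra.induction_linear with
      | zero => simp
      | add x y hx hy => rw [map_add, map_add, hx, hy]
      | single s r =>
        rw [mapHom_single, mapHom_single, Sg.map_map, Equiv.symm_comp_self, Function.id_comp,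
          Sg.map_id])
    (by
      intro x
      induction x using MonoidAlgebra.induction_linear with
      | zero => simp
      | add x y hx hy => rw [map_add, map_add, hx, hy]
      | single s r =>
        rw [mapHom_single, mapHom_single, Sg.map_map, Equiv.self_comp_symm, Function.id_comp,
          Sg.map_id])

/-- the large index set -/
abbrev JJ := ℕ ⊕ Set ℕ

/-- the embedding of the small algebra -/
noncomputable def iota : SA P ℕ ℕ →ₙₐ[P] SA P ℕ JJ :=
  mapHom Function.injective_id (g := (Sum.inl : ℕ → JJ)) Sum.inl_injective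

/-- The elements of `JJ` occurring in an element of the algebra. -/
def occ (x : SA P ℕ JJ) : Set JJ := {j | Sg.b j ∈ x.coeff.support}

theorem occ_finite (x : SA P ℕ JJ) : (occ x).Finite := by
  have : occ x ⊆ (fun s : Sg ℕ JJ => match s with | Sg.b j => j | _ => Sum.inl 0) ''
      (x.coeff.support : Set (Sg ℕ JJ)) := by
    intro j hj
    exact ⟨Sg.b j, hj, rfl⟩
  exact (x.coeff.support.finite_toSet.image _).subset this

theorem perm_fix {π : Equiv.Perm JJ} {x : SA P ℕ JJ} (h : ∀ j ∈ occ x, π j = j) :
    permEquiv π x = x := by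
  change mapHom Function.injective_id π.injective x = x
  rw [mapHom_eq]
  have : Finsupp.mapDomain (Sg.map id π) x.coeff = Finsupp.mapDomain id x.coeff := by
    apply Finsupp.mapDomain_congr
    intro s hs
    rcases s with _ | i | _ | j | _ | _
    all_goals try rfl
    change Sg.b (π j) = Sg.b j
    rw [h j hs]
  rw [this, Finsupp.mapDomain_id]

theorem perm_range {π : Equiv.Perm JJ} {x : SA P ℕ JJ} (h : ∀ j ∈ occ x, ∃ m : ℕ, π j = Sum.inl m) :
    ∃ y : SA P ℕ ℕ, iota y = permEquiv π x := by
  classical
  choose! m hm using h
  refine ⟨MonoidAlgebra.ofCoeff (Finsupp.mapDomain (Sg.map id m) x.coeff), ?_⟩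
  change mapHom Function.injective_id Sum.inl_injective _ = mapHom Function.injective_id π.injective _
  rw [mapHom_eq, mapHom_eq, MonoidAlgebra.coeff_ofCoeff, ← Finsupp.mapDomain_comp]
  congr 1
  apply Finsupp.mapDomain_congr
  intro s hs
  rcases s with _ | i | _ | j | _ | _
  all_goals try rfl
  change Sg.b (Sum.inl (m j)) = Sg.b (π j)
  rw [hm j hs]

/-- Finitely many elements of the small algebra can be fixed, while an element of the large algebra
is moved into the small one. -/
theorem move {n : ℕ} (x : Fin n → SA P ℕ ℕ) (z : SA P ℕ JJ) :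
    ∃ π : Equiv.Perm JJ, (∀ k, permEquiv (P := P) π (iota (x k)) = iota (x k)) ∧
      ∃ y, iota y = permEquiv π z := by
  classical
  -- the finite set of all indices
  let F : Set JJ := (⋃ k, occ (iota (x k))) ∪ occ z
  have hF : F.Finite := (Set.finite_iUnion fun k => occ_finite _).union (occ_finite z)
  obtain ⟨m, hm⟩ : ∃ m : ℕ, ∀ j : ℕ, (Sum.inl j : JJ) ∈ F → j < m := by
    have h1 : (Sum.inl ⁻¹' F : Set ℕ).Finite := hF.preimage Sum.inl_injective.injOn
    obtain ⟨m, hm⟩ := h1.bddAbove
    exact ⟨m + 1, fun j hj => Nat.lt_succ_of_le (hm hj)⟩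
  -- numbering of the finite set
  obtain ⟨idx, hidx⟩ : ∃ idx : JJ → ℕ, Set.InjOn idx F := by
    have := hF.to_subtype
    obtain ⟨N, ⟨e⟩⟩ := Finite.exists_equiv_fin F
    refine ⟨fun j => if h : j ∈ F then (e ⟨j, h⟩ : ℕ) else 0, ?_⟩
    intro j hj j' hj' h
    simp only [dif_pos hj, dif_pos hj'] at h
    have := e.injective (Fin.ext h)
    exact congrArg Subtype.val this
  let h : JJ → JJ := fun j => match j with
    | Sum.inl j => Sum.inl j
    | Sum.inr s => Sum.inl (m + idx (Sum.inr s))
  have hinj : Set.InjOn h F := by
    rintro (j | s) hj (j' | s') hj' heq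
    · simpa [h] using heq
    · have h1 := hm j hj
      have h2 : j = m + idx (Sum.inr s') := by simpa [h] using heq
      omega
    · have h1 := hm j' hj'
      have h2 : m + idx (Sum.inr s) = j' := by simpa [h] using heq
      omega
    · have h2 : idx (Sum.inr s) = idx (Sum.inr s') := by simpa [h] using heq
      exact hidx hj hj' h2
  obtain ⟨π, hπ⟩ := perm_extend ((fun j => (j, h j)) '' F) (hF.image _) (by
    rintro _ ⟨j, hj, rfl⟩ _ ⟨j', hj', rfl⟩
    simp only
    exact (hinj.eq_iff hj hj').symm)
  have hπ' : ∀ j ∈ F, π j = h j := fun j hj => hπ (j, h j) ⟨j, hj, rfl⟩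
  refine ⟨π, fun k => ?_, ?_⟩
  · refine perm_fix fun j hj => ?_
    rw [hπ' j (Or.inl (Set.mem_iUnion.mpr ⟨k, hj⟩))]
    -- the element of the support comes from the small algebra
    have h1 : ∃ i : ℕ, j = Sum.inl i := by
      have h2 : Sg.b j ∈ (Finsupp.mapDomain (Sg.map id (Sum.inl : ℕ → JJ)) (x k).coeff).support := by
        have := hj
        unfold occ iota at this
        rw [mapHom_eq] at this
        exact this
      obtain ⟨s, _, hs⟩ := Finset.mem_image.mp (Finsupp.mapDomain_support h2)
      rcases s with _ | i | _ | i | _ | _ <;> simp [Sg.map] at hs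
      exact ⟨i, hs.symm⟩
    obtain ⟨i, rfl⟩ := h1
    rfl
  · refine perm_range fun j hj => ?_
    rw [hπ' j (Or.inr hj)]
    rcases j with j | s
    · exact ⟨j, rfl⟩
    · exact ⟨_, rfl⟩

theorem iota_injective : Function.Injective (iota (P := P)) := mapHom_injective _ _

/-- The small algebra is an elementary substructure. -/
theorem iota_elementary {n : ℕ} (φ : (algL P).Formula (Fin n)) (x : Fin n → SA P ℕ ℕ) :
    φ.Realize (iota ∘ x) ↔ φ.Realize x := by
  refine Embedding.isElementary_of_exists (embOfHom iota iota_injective) ?_ φ x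
  intro n φ x z hz
  obtain ⟨π, hπ, y, hy⟩ := move x z
  refine ⟨y, ?_⟩
  have h1 := (StrongHomClass.realize_boundedFormula (permEquiv (P := P) π) φ).mpr hz
  have h2 : (permEquiv (P := P) π) ∘ (Fin.snoc (iota ∘ x) z : Fin (n + 1) → SA P ℕ JJ) =
      Fin.snoc (iota ∘ x) (iota y) := by
    rw [Fin.comp_snoc, hy]
    congr 1
    funext k
    exact hπ k
  exact (iff_of_eq (congrArg₂ (fun v xs => φ.Realize v xs) (Subsingleton.elim _ _) h2)).mp h1

end Pool.Agent.R951.LH
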