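import Mathlib

/-!
# Logically homogeneous semigroups, fields and associative algebras
-/

namespace Pool.Agent.R951.LH

open FirstOrder

/-- The structure `str` on `M` is logically homogeneous: any two tuples of the same length with the
same type are conjugate under an automorphism. -/
def Homogeneous (L : FirstOrder.Language.{0, 0}) (M : Type) (str : L.Structure M) : Prop :=
  ∀ (n : ℕ) (a b : Fin n → M),
    (∀ φ : L.Formula (Fin n), φ.Realize a ↔ φ.Realize b) →
      ∃ σ : M ≃[L] M, ∀ i, σ (a i) = b i

/-- the function symbol of the language of semigroups -/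
inductive SgF : ℕ → Type
  | mul : SgF 2

/-- the language of semigroups: one binary operation -/
def sgL : FirstOrder.Language.{0, 0} := ⟨SgF, fun _ => Empty⟩

/-- a semigroup as a structure for the language of semigroups -/
@[instance_reducible]
def sgStr (S : Type) [Semigroup S] : sgL.Structure S where
  funMap := fun {_} f x => match f, x with
    | SgF.mul, x => x 0 * x 1
  RelMap := fun r _ => nomatch r

/-- the function symbols of the language of rings -/
inductive RgF : ℕ → Type
  | zero : RgF 0
  | one : RgF 0
  | neg : RgF 1
  | add : RgF 2
  | mul : RgF 2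

/-- the language of rings -/
def rgL : FirstOrder.Language.{0, 0} := ⟨RgF, fun _ => Empty⟩

/-- a field as a structure for the language of rings -/
@[instance_reducible]
def rgStr (P : Type) [Field P] : rgL.Structure P where
  funMap := fun {_} f x => match f, x with
    | RgF.zero, _ => 0
    | RgF.one, _ => 1
    | RgF.neg, x => -(x 0)
    | RgF.add, x => x 0 + x 1
    | RgF.mul, x => x 0 * x 1
  RelMap := fun r _ => nomatch r

/-- the function symbols of the language of associative algebras over `P` -/
inductive AlgF (P : Type) : ℕ → Type
  | zero : AlgF P 0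
  | neg : AlgF P 1
  | smul (p : P) : AlgF P 1
  | add : AlgF P 2
  | mul : AlgF P 2

/-- the language of associative algebras over `P`: the ring operations and the multiplication by
each scalar in `P` -/
def algL (P : Type) : FirstOrder.Language.{0, 0} := ⟨AlgF P, fun _ => Empty⟩

/-- an associative algebra over `P` as a structure for the language of associative algebras -/
@[instance_reducible]
def algStr (P A : Type) [Field P] [NonUnitalRing A] [Module P A] : (algL P).Structure A where
  funMap := fun {_} f x => match f, x with
    | AlgF.zero, _ => 0
    | AlgF.neg, x => -(x 0)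
    | AlgF.smul p, x => p • x 0
    | AlgF.add, x => x 0 + x 1
    | AlgF.mul, x => x 0 * x 1
  RelMap := fun r _ => nomatch r

/-! ### extension of finite partial permutations -/

theorem perm_extend {α : Type} (R : Set (α × α)) (hfin : R.Finite)
    (hR : ∀ p ∈ R, ∀ q ∈ R, p.1 = q.1 ↔ p.2 = q.2) :
    ∃ π : Equiv.Perm α, ∀ p ∈ R, π p.1 = p.2 := by
  classical
  induction R, hfin using Set.Finite.induction_on with
  | empty => exact ⟨1, fun p hp => (Set.notMem_empty p hp).elim⟩
  | @insert p R hp _ ih =>
    obtain ⟨π, hπ⟩ := ih fun q hq q' hq' => hR q (Set.mem_insert_of_mem _ hq) q'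
      (Set.mem_insert_of_mem _ hq')
    refine ⟨Equiv.swap (π p.1) p.2 * π, ?_⟩
    intro q hq
    rw [Equiv.Perm.mul_apply]
    rcases Set.mem_insert_iff.mp hq with rfl | hq'
    · exact Equiv.swap_apply_left _ _
    · have h1 := hR q hq p (Set.mem_insert _ _)
      have h2 : q.1 ≠ p.1 := by
        intro h
        have h3 := h1.mp h
        exact hp (by rwa [show p = q from Prod.ext h.symm h3.symm])
      have h3 : q.2 ≠ p.2 := fun h => h2 (h1.mpr h)
      rw [hπ q hq', Equiv.swap_apply_of_ne_of_ne _ h3]
      rw [← hπ q hq']
      exact fun h => h2 (π.injective h)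

end Pool.Agent.R951.LH
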