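import Pool.Agent.R951.LH.Defs

/-!
# The semilattice and its homogeneity

The semilattice has a zero `th`; a first block with atoms `a i` and the identity `e`; a second block
with atoms `b j`, an identity `c` of the atoms of the block, and the identity `d` of the block.
-/

namespace Pool.Agent.R951.LH

open FirstOrder FirstOrder.Language

/-- the semilattice -/
inductive Sg (I J : Type) : Type
  | th : Sg I J
  | a (i : I) : Sg I J
  | e : Sg I J
  | b (j : J) : Sg I J
  | c : Sg I J
  | d : Sg I J

namespace Sg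

variable {I J : Type}

open Classical in
/-- the product (the meet) -/
noncomputable def mul : Sg I J → Sg I J → Sg I J
  | a i, a i' => if i = i' then a i else th
  | a i, e => a i
  | e, a i => a i
  | e, e => e
  | b j, b j' => if j = j' then b j else th
  | b j, c => b j
  | b j, d => b j
  | c, b j => b j
  | d, b j => b j
  | c, c => c
  | c, d => c
  | d, c => c
  | d, d => d
  | _, _ => th

theorem mul_assoc' (x y z : Sg I J) : mul (mul x y) z = mul x (mul y z) := by
  rcases x <;> rcases y <;> rcases z <;> simp only [mul] <;> (try split_ifs) <;>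
    simp_all [mul]

noncomputable instance : Semigroup (Sg I J) where
  mul := mul
  mul_assoc := mul_assoc'

theorem mul_def (x y : Sg I J) : x * y = mul x y := rfl

/-- functoriality -/
def map {I' J' : Type} (f : I → I') (g : J → J') : Sg I J → Sg I' J'
  | th => th
  | a i => a (f i)
  | e => e
  | b j => b (g j)
  | c => c
  | d => d

theorem map_mul {I' J' : Type} {f : I → I'} {g : J → J'} (hf : Function.Injective f)
    (hg : Function.Injective g) (x y : Sg I J) : map f g (x * y) = map f g x * map f g y := by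
  rw [mul_def, mul_def]
  rcases x with _ | i | _ | j | _ | _ <;> rcases y with _ | i' | _ | j' | _ | _
  all_goals try rfl
  · by_cases h : i = i'
    · simp [mul, map, h]
    · simp [mul, map, h, hf.eq_iff]
  · by_cases h : j = j'
    · simp [mul, map, h]
    · simp [mul, map, h, hg.eq_iff]

theorem map_injective {I' J' : Type} {f : I → I'} {g : J → J'} (hf : Function.Injective f)
    (hg : Function.Injective g) : Function.Injective (map f g : Sg I J → Sg I' J') := by
  intro x y h
  rcases x <;> rcases y <;> simp_all [map, hf.eq_iff, hg.eq_iff]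

theorem map_map {I' J' I'' J'' : Type} (f : I → I') (g : J → J') (f' : I' → I'') (g' : J' → J'')
    (x : Sg I J) : map f' g' (map f g x) = map (f' ∘ f) (g' ∘ g) x := by
  rcases x <;> rfl

theorem map_id (x : Sg I J) : map id id x = x := by
  rcases x <;> rfl

/-- the kind of an element -/
def kind : Sg I J → Fin 6
  | th => 0
  | a _ => 1
  | e => 2
  | b _ => 3
  | c => 4
  | d => 5

/-- the strict order -/
def lt (x y : Sg I J) : Prop := x * y = x ∧ x ≠ y

theorem lt_iff (x y : Sg I J) : lt x y ↔ mul x y = x ∧ x ≠ y := Iff.rfl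

section
variable [Nonempty I] [Nonempty J]

theorem U1_iff (x : Sg I J) : (∃ y, lt x y) ↔ (kind x = 0 ∨ kind x = 1 ∨ kind x = 3 ∨ kind x = 4) := by
  constructor
  · rintro ⟨y, hy⟩
    rw [lt_iff] at hy
    rcases x <;> rcases y <;> simp_all [mul, kind]
  · intro h
    rcases x <;> simp [kind] at h
    · exact ⟨e, by simp [lt_iff, mul]⟩
    · exact ⟨e, by simp [lt_iff, mul]⟩
    · exact ⟨c, by simp [lt_iff, mul]⟩
    · exact ⟨d, by simp [lt_iff, mul]⟩

theorem U2_iff (x : Sg I J) : (∃ y z, lt x y ∧ lt y z) ↔ (kind x = 0 ∨ kind x = 3) := by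
  constructor
  · rintro ⟨y, z, hy, hz⟩
    rw [lt_iff] at hy hz
    rcases x <;> rcases y <;> rcases z <;> simp_all [mul, kind]
  · intro h
    rcases x <;> simp [kind] at h
    · exact ⟨c, d, by simp [lt_iff, mul], by simp [lt_iff, mul]⟩
    · exact ⟨c, d, by simp [lt_iff, mul], by simp [lt_iff, mul]⟩

theorem D1_iff (x : Sg I J) : (∃ y, lt y x) ↔ kind x ≠ 0 := by
  constructor
  · rintro ⟨y, hy⟩
    rw [lt_iff] at hy
    rcases x <;> rcases y <;> simp_all [mul, kind]
  · intro h
    rcases x <;> simp [kind] at h <;> exact ⟨th, by simp [lt_iff, mul]⟩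

theorem D2_iff (x : Sg I J) : (∃ y z, lt y z ∧ lt z x) ↔ (kind x = 2 ∨ kind x = 4 ∨ kind x = 5) := by
  obtain ⟨i⟩ := ‹Nonempty I›
  obtain ⟨j⟩ := ‹Nonempty J›
  constructor
  · rintro ⟨y, z, hy, hz⟩
    rw [lt_iff] at hy hz
    rcases x <;> rcases y <;> rcases z <;> simp_all [mul, kind]
  · intro h
    rcases x <;> simp [kind] at h
    · exact ⟨th, a i, by simp [lt_iff, mul], by simp [lt_iff, mul]⟩
    · exact ⟨th, b j, by simp [lt_iff, mul], by simp [lt_iff, mul]⟩
    · exact ⟨th, b j, by simp [lt_iff, mul], by simp [lt_iff, mul]⟩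

theorem D3_iff (x : Sg I J) : (∃ y z w, lt y z ∧ lt z w ∧ lt w x) ↔ kind x = 5 := by
  obtain ⟨j⟩ := ‹Nonempty J›
  constructor
  · rintro ⟨y, z, w, hy, hz, hw⟩
    rw [lt_iff] at hy hz hw
    rcases x <;> rcases w <;> simp [mul] at hw <;> rcases z <;> simp [mul] at hz <;>
      rcases y <;> simp [mul] at hy <;> simp_all [mul, kind]
  · intro h
    rcases x <;> simp [kind] at h
    exact ⟨th, b j, c, by simp [lt_iff, mul], by simp [lt_iff, mul], by simp [lt_iff, mul]⟩

end

/-! ### formulas -/

/-- the product of two terms -/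
def tmul {α : Type} (t s : sgL.Term α) : sgL.Term α := Term.func (SgF.mul : sgL.Functions 2) ![t, s]

/-- the formula `t < s` -/
def flt {α : Type} {m : ℕ} (t s : sgL.Term (α ⊕ Fin m)) : sgL.BoundedFormula α m :=
  ((tmul t s) =' t) ⊓ ∼(t =' s)

attribute [local instance] sgStr

theorem realize_tmul {α : Type} (v : α → Sg I J) (t s : sgL.Term α) :
    (tmul t s).realize v = t.realize v * s.realize v := rfl

theorem realize_flt {α : Type} {m : ℕ} (t s : sgL.Term (α ⊕ Fin m)) (v : α → Sg I J)
    (xs : Fin m → Sg I J) : (flt t s).Realize v xs ↔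
      lt (t.realize (Sum.elim v xs)) (s.realize (Sum.elim v xs)) := by
  unfold flt lt
  rw [BoundedFormula.realize_inf, BoundedFormula.realize_not, BoundedFormula.realize_bdEqual,
    BoundedFormula.realize_bdEqual, realize_tmul]

section
variable {n : ℕ}

/-- the free variable `k` -/
def fv (k : Fin n) (m : ℕ) : sgL.Term (Fin n ⊕ Fin m) := Term.var (Sum.inl k)

/-- the bound variable `i` -/
def bv (n : ℕ) {m : ℕ} (i : Fin m) : sgL.Term (Fin n ⊕ Fin m) := Term.var (Sum.inr i)

/-- not maximal -/
def fU1 (k : Fin n) : sgL.Formula (Fin n) := BoundedFormula.ex (flt (fv k 1) (bv n 0))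

/-- two steps above -/
def fU2 (k : Fin n) : sgL.Formula (Fin n) :=
  BoundedFormula.ex (BoundedFormula.ex (flt (fv k 2) (bv n 0) ⊓ flt (bv n 0) (bv n 1)))

/-- not minimal -/
def fD1 (k : Fin n) : sgL.Formula (Fin n) := BoundedFormula.ex (flt (bv n 0) (fv k 1))

/-- two steps below -/
def fD2 (k : Fin n) : sgL.Formula (Fin n) :=
  BoundedFormula.ex (BoundedFormula.ex (flt (bv n 0) (bv n 1) ⊓ flt (bv n 1) (fv k 2)))

/-- three steps below -/
def fD3 (k : Fin n) : sgL.Formula (Fin n) :=
  BoundedFormula.ex (BoundedFormula.ex (BoundedFormula.ex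
    (flt (bv n 0) (bv n 1) ⊓ (flt (bv n 1) (bv n 2) ⊓ flt (bv n 2) (fv k 3)))))

theorem realize_fU1 (k : Fin n) (x : Fin n → Sg I J) : (fU1 k).Realize x ↔ ∃ y, lt (x k) y := by
  unfold fU1 Formula.Realize
  rw [BoundedFormula.realize_ex]
  simp only [realize_flt]
  rfl

theorem realize_fD1 (k : Fin n) (x : Fin n → Sg I J) : (fD1 k).Realize x ↔ ∃ y, lt y (x k) := by
  unfold fD1 Formula.Realize
  rw [BoundedFormula.realize_ex]
  simp only [realize_flt]
  rfl

theorem realize_fU2 (k : Fin n) (x : Fin n → Sg I J) :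
    (fU2 k).Realize x ↔ ∃ y z, lt (x k) y ∧ lt y z := by
  unfold fU2 Formula.Realize
  simp only [BoundedFormula.realize_ex, BoundedFormula.realize_inf, realize_flt]
  rfl

theorem realize_fD2 (k : Fin n) (x : Fin n → Sg I J) :
    (fD2 k).Realize x ↔ ∃ y z, lt y z ∧ lt z (x k) := by
  unfold fD2 Formula.Realize
  simp only [BoundedFormula.realize_ex, BoundedFormula.realize_inf, realize_flt]
  rfl

theorem realize_fD3 (k : Fin n) (x : Fin n → Sg I J) :
    (fD3 k).Realize x ↔ ∃ y z w, lt y z ∧ lt z w ∧ lt w (x k) := by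
  unfold fD3 Formula.Realize
  simp only [BoundedFormula.realize_ex, BoundedFormula.realize_inf, realize_flt]
  rfl

end

/-- the automorphism given by permutations of the atoms -/
noncomputable def mapEquiv (f : Equiv.Perm I) (g : Equiv.Perm J) : Sg I J ≃[sgL] Sg I J where
  toFun := map f g
  invFun := map f.symm g.symm
  left_inv x := by
    rw [map_map, Equiv.symm_comp_self, Equiv.symm_comp_self, map_id]
  right_inv x := by
    rw [map_map, Equiv.self_comp_symm, Equiv.self_comp_symm, map_id]
  map_fun' := by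
    rintro n ⟨⟩ x
    exact map_mul f.injective g.injective (x 0) (x 1)
  map_rel' := by
    rintro n ⟨⟩

/-- **The semilattice is logically homogeneous.** -/
theorem homogeneous [Nonempty I] [Nonempty J] : Homogeneous sgL (Sg I J) (sgStr (Sg I J)) := by
  intro n x y h
  have hkind : ∀ k, kind (x k) = kind (y k) := by
    intro k
    have h1 := h (fU1 k)
    have h2 := h (fU2 k)
    have h3 := h (fD1 k)
    have h4 := h (fD2 k)
    have h5 := h (fD3 k)
    rw [realize_fU1, realize_fU1, U1_iff, U1_iff] at h1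
    rw [realize_fU2, realize_fU2, U2_iff, U2_iff] at h2
    rw [realize_fD1, realize_fD1, D1_iff, D1_iff] at h3
    rw [realize_fD2, realize_fD2, D2_iff, D2_iff] at h4
    rw [realize_fD3, realize_fD3, D3_iff, D3_iff] at h5
    revert h1 h2 h3 h4 h5
    generalize kind (x k) = p
    generalize kind (y k) = q
    revert p q
    decide
  have heq : ∀ k l, x k = x l ↔ y k = y l := by
    intro k l
    have h1 := h (Term.equal (Term.var k) (Term.var l))
    rw [Formula.realize_equal, Formula.realize_equal] at h1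
    exact h1
  obtain ⟨f, hf⟩ := perm_extend {p : I × I | ∃ k, x k = a p.1 ∧ y k = a p.2} (by
      have : {p : I × I | ∃ k, x k = a p.1 ∧ y k = a p.2} =
          ⋃ k, {p : I × I | x k = a p.1 ∧ y k = a p.2} := by
        ext p; simp
      rw [this]
      refine Set.finite_iUnion fun k => Set.Subsingleton.finite ?_
      rintro ⟨p, p'⟩ ⟨h1, h2⟩ ⟨q, q'⟩ ⟨h3, h4⟩
      simp only at h1 h2 h3 h4
      rw [h1] at h3
      rw [h2] at h4
      simp_all) (by
      rintro ⟨p, p'⟩ ⟨k, h1, h2⟩ ⟨q, q'⟩ ⟨l, h3, h4⟩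
      simp only at h1 h2 h3 h4 ⊢
      have := heq k l
      rw [h1, h2, h3, h4] at this
      simpa using this)
  obtain ⟨g, hg⟩ := perm_extend {p : J × J | ∃ k, x k = b p.1 ∧ y k = b p.2} (by
      have : {p : J × J | ∃ k, x k = b p.1 ∧ y k = b p.2} =
          ⋃ k, {p : J × J | x k = b p.1 ∧ y k = b p.2} := by
        ext p; simp
      rw [this]
      refine Set.finite_iUnion fun k => Set.Subsingleton.finite ?_
      rintro ⟨p, p'⟩ ⟨h1, h2⟩ ⟨q, q'⟩ ⟨h3, h4⟩
      simp only at h1 h2 h3 h4
      rw [h1] at h3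
      rw [h2] at h4
      simp_all) (by
      rintro ⟨p, p'⟩ ⟨k, h1, h2⟩ ⟨q, q'⟩ ⟨l, h3, h4⟩
      simp only at h1 h2 h3 h4 ⊢
      have := heq k l
      rw [h1, h2, h3, h4] at this
      simpa using this)
  refine ⟨mapEquiv f g, fun k => ?_⟩
  change map f g (x k) = y k
  have hk := hkind k
  rcases hx : x k with _ | i | _ | j | _ | _ <;> rcases hy : y k with _ | i' | _ | j' | _ | _ <;>
    rw [hx, hy] at hk <;> simp [kind] at hk
  · rfl
  · have := hf (i, i') ⟨k, hx, hy⟩
    simp only at this
    simp [map, this]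
  · rfl
  · have := hg (j, j') ⟨k, hx, hy⟩
    simp only at this
    simp [map, this]
  · rfl
  · rfl

end Sg

end Pool.Agent.R951.LH
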