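import Pool.Agent.R951.LH.Alg

/-!
# The automorphism of the small algebra which exchanges the blocks
-/

namespace Pool.Agent.R951.LH

open FirstOrder FirstOrder.Language

attribute [local instance] algStr

variable {P : Type} [Field P]

/-- a basis element -/
noncomputable def sg {I J : Type} (s : Sg I J) : SA P I J := MonoidAlgebra.single s 1

theorem sg_mul {I J : Type} (s t : Sg I J) : (sg s : SA P I J) * sg t = sg (Sg.mul s t) := by
  unfold sg
  rw [MonoidAlgebra.single_mul_single, one_mul]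
  rfl

/-- the images of the basis elements under the exchange of the blocks -/
noncomputable def swFun : Sg ℕ ℕ → SA P ℕ ℕ
  | Sg.th => sg Sg.th
  | Sg.a 0 => sg Sg.d - sg Sg.c + sg Sg.th
  | Sg.a (k + 1) => sg (Sg.b k)
  | Sg.e => sg Sg.d
  | Sg.b j => sg (Sg.a (j + 1))
  | Sg.c => sg Sg.e - sg (Sg.a 0) + sg Sg.th
  | Sg.d => sg Sg.e

theorem swFun_mul (x y : Sg ℕ ℕ) : (swFun (x * y) : SA P ℕ ℕ) = swFun x * swFun y := by
  rw [Sg.mul_def]
  rcases x with _ | (_ | i) | _ | j | _ | _ <;> rcases y with _ | (_ | i') | _ | j' | _ | _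
  all_goals
    try (simp [swFun, sg_mul, Sg.mul, mul_add, add_mul, mul_sub, sub_mul]; done)
  · by_cases h : i = i'
    · simp [swFun, sg_mul, Sg.mul, h]
    · simp [swFun, sg_mul, Sg.mul, h]
  · by_cases h : j = j'
    · simp [swFun, sg_mul, Sg.mul, h]
    · simp [swFun, sg_mul, Sg.mul, h]

/-- the exchange of the blocks -/
noncomputable def sw : SA P ℕ ℕ →ₙₐ[P] SA P ℕ ℕ :=
  MonoidAlgebra.liftMagma P { toFun := swFun, map_mul' := swFun_mul }

theorem sw_single (s : Sg ℕ ℕ) (r : P) : sw (MonoidAlgebra.single s r) = r • swFun s := by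
  unfold sw
  simp

theorem sw_sg (s : Sg ℕ ℕ) : sw (sg s : SA P ℕ ℕ) = swFun s := by
  unfold sg
  rw [sw_single, one_smul]

theorem sw_swFun (s : Sg ℕ ℕ) : sw (swFun s : SA P ℕ ℕ) = sg s := by
  rcases s with _ | (_ | i) | _ | j | _ | _
  all_goals simp only [swFun, sw_sg, map_add, map_sub]
  all_goals abel

theorem sw_sw (x : SA P ℕ ℕ) : sw (sw x) = x := by
  induction x using MonoidAlgebra.induction_linear with
  | zero => simp
  | add x y hx hy => rw [map_add, map_add, hx, hy]
  | single s r =>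
    rw [sw_single, map_smul, sw_swFun]
    unfold sg
    simp

/-- the exchange of the blocks as an isomorphism of structures -/
noncomputable def swEquiv : SA P ℕ ℕ ≃[algL P] SA P ℕ ℕ := equivOfHom sw sw sw_sw sw_sw

/-- the unit of the first block -/
noncomputable def f1 (J : Type) : SA P ℕ J := sg Sg.e - sg Sg.th

/-- the unit of the second block -/
noncomputable def f2 (J : Type) : SA P ℕ J := sg Sg.d - sg Sg.th

theorem sw_f1 : sw (f1 ℕ : SA P ℕ ℕ) = f2 ℕ := by
  unfold f1 f2
  rw [map_sub, sw_sg, sw_sg]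
  rfl

theorem iota_sg (s : Sg ℕ ℕ) : iota (sg s : SA P ℕ ℕ) = sg (Sg.map id Sum.inl s) :=
  mapHom_single _ _ _ _

theorem iota_f1 : iota (f1 ℕ : SA P ℕ ℕ) = f1 JJ := by
  unfold f1
  rw [map_sub, iota_sg, iota_sg]
  rfl

theorem iota_f2 : iota (f2 ℕ : SA P ℕ ℕ) = f2 JJ := by
  unfold f2
  rw [map_sub, iota_sg, iota_sg]
  rfl

/-- The two block units have the same type in the large algebra. -/
theorem same_type (φ : (algL P).Formula (Fin 1)) :
    φ.Realize (fun _ => (f1 JJ : SA P ℕ JJ)) ↔ φ.Realize (fun _ => (f2 JJ : SA P ℕ JJ)) := by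
  have h1 := iota_elementary φ (fun _ => (f1 ℕ : SA P ℕ ℕ))
  have h2 := iota_elementary φ (fun _ => (f2 ℕ : SA P ℕ ℕ))
  have h3 := StrongHomClass.realize_formula (swEquiv (P := P)) φ (v := fun _ => (f1 ℕ : SA P ℕ ℕ))
  have e1 : iota ∘ (fun _ : Fin 1 => (f1 ℕ : SA P ℕ ℕ)) = fun _ => f1 JJ := by
    funext k; exact iota_f1
  have e2 : iota ∘ (fun _ : Fin 1 => (f2 ℕ : SA P ℕ ℕ)) = fun _ => f2 JJ := by
    funext k; exact iota_f2
  have e3 : (swEquiv (P := P)) ∘ (fun _ : Fin 1 => (f1 ℕ : SA P ℕ ℕ)) = fun _ => f2 ℕ := by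
    funext k; exact sw_f1
  rw [e1] at h1
  rw [e2] at h2
  rw [e3] at h3
  rw [h1, h2, h3]

/-! ### the blocks have different sizes -/

instance : Countable (Sg ℕ Empty) := by
  let f : Sg ℕ Empty → ℕ × ℕ := fun s => match s with
    | Sg.th => (0, 0)
    | Sg.a i => (1, i)
    | Sg.e => (2, 0)
    | Sg.c => (3, 0)
    | Sg.d => (4, 0)
  have hf : Function.Injective f := by
    intro x y h
    rcases x with _ | i | _ | j | _ | _ <;> rcases y with _ | i' | _ | j' | _ | _ <;>
      first | exact j.elim | exact j'.elim | (simp [f] at h; try simp [h])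
  exact hf.countable

/-- The elements of the first block come from a countable algebra. -/
theorem block1 (x : SA P ℕ JJ) :
    ∃ y : SA P ℕ Empty, f1 JJ * x = mapHom Function.injective_id
      (Function.injective_of_subsingleton (Empty.elim : Empty → JJ)) y := by
  induction x using MonoidAlgebra.induction_linear with
  | zero => exact ⟨0, by simp⟩
  | add x y hx hy =>
    obtain ⟨u, hu⟩ := hx
    obtain ⟨v, hv⟩ := hy
    exact ⟨u + v, by rw [mul_add, map_add, hu, hv]⟩
  | single s r =>
    have h : ∃ t : Sg ℕ Empty, Sg.map id Empty.elim t = Sg.mul Sg.e s := by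
      rcases s with _ | i | _ | j | _ | _
      · exact ⟨Sg.th, rfl⟩
      · exact ⟨Sg.a i, rfl⟩
      · exact ⟨Sg.e, rfl⟩
      · exact ⟨Sg.th, rfl⟩
      · exact ⟨Sg.th, rfl⟩
      · exact ⟨Sg.th, rfl⟩
    obtain ⟨t, ht⟩ := h
    refine ⟨MonoidAlgebra.single t r - MonoidAlgebra.single Sg.th r, ?_⟩
    rw [map_sub, mapHom_single, mapHom_single, ht]
    unfold f1 sg
    rw [sub_mul, MonoidAlgebra.single_mul_single, MonoidAlgebra.single_mul_single, one_mul]
    have h2 : (Sg.th : Sg ℕ JJ) * s = Sg.th := by rcases s <;> rfl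
    rw [h2]
    rfl

theorem countable_block1 [Countable P] : {x : SA P ℕ JJ | f1 JJ * x = x}.Countable := by
  have : Countable (SA P ℕ Empty) := by
    have h1 : Countable (Sg ℕ Empty →₀ P) := inferInstance
    exact (MonoidAlgebra.coeff_injective (R := P) (M := Sg ℕ Empty)).countable
  refine (Set.countable_range (mapHom (P := P) Function.injective_id
      (Function.injective_of_subsingleton (Empty.elim : Empty → JJ)))).mono ?_
  intro x hx
  obtain ⟨y, hy⟩ := block1 x
  exact ⟨y, by rw [← hy]; exact hx⟩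

theorem uncountable_block2 : ¬ {x : SA P ℕ JJ | f2 JJ * x = x}.Countable := by
  intro h
  have h1 : (Set.range fun j : JJ => (sg (Sg.b j) - sg Sg.th : SA P ℕ JJ)).Countable := by
    refine h.mono ?_
    rintro _ ⟨j, rfl⟩
    change f2 JJ * (sg (Sg.b j) - sg Sg.th) = _
    unfold f2
    rw [mul_sub, sub_mul, sub_mul, sg_mul, sg_mul, sg_mul, sg_mul]
    simp [Sg.mul]
  have h2 : Function.Injective fun j : JJ => (sg (Sg.b j) - sg Sg.th : SA P ℕ JJ) := by
    intro j j' hjj
    simp only at hjj
    have h3 : (sg (Sg.b j) : SA P ℕ JJ) = sg (Sg.b j') := sub_left_injective hjj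
    unfold sg at h3
    have h4 := congrArg MonoidAlgebra.coeff h3
    rw [MonoidAlgebra.coeff_single, MonoidAlgebra.coeff_single] at h4
    have h5 := (Finsupp.single_left_injective (one_ne_zero (α := P))) h4
    simpa using h5
  have h3 : Countable JJ := by
    have := h1.to_subtype
    exact (Set.injective_codRestrict (fun j => Set.mem_range_self j)).mpr h2 |>.countable
  have h4 : Countable (Set ℕ) := (Sum.inr_injective (α := ℕ) (β := Set ℕ)).countable
  obtain ⟨f, hf⟩ := exists_surjective_nat (Set ℕ)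
  exact Function.cantor_surjective f hf

/-- **The semigroup algebra over a countable field is not logically homogeneous.** -/
theorem not_homogeneous [Countable P] :
    ¬ Homogeneous (algL P) (SA P ℕ JJ) (algStr P (SA P ℕ JJ)) := by
  intro h
  obtain ⟨σ, hσ⟩ := h 1 (fun _ => f1 JJ) (fun _ => f2 JJ) same_type
  have hσ' := hσ 0
  have hmul : ∀ x y : SA P ℕ JJ, σ (x * y) = σ x * σ y := by
    intro x y
    have := σ.map_fun' (AlgF.mul : (algL P).Functions 2) ![x, y]
    exact this
  apply uncountable_block2 (P := P)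
  have h1 := (countable_block1 (P := P)).image σ
  refine h1.mono ?_
  intro x hx
  refine ⟨σ.symm x, ?_, σ.apply_symm_apply x⟩
  change f1 JJ * σ.symm x = σ.symm x
  apply σ.injective
  rw [hmul, σ.apply_symm_apply, hσ']
  exact hx

end Pool.Agent.R951.LH
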